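import Mathlib
import Pool.Agent.MP_39baa9_co.Defs
import Pool.Agent.MP_39baa9_co.Mg.Final

set_option autoImplicit false

open Pool.Agent.MP_39baa9_co

/-- For even `r ≥ 4`, a connected 3-edge-critical graph on at least `(r+2)^2` vertices has at most
`r` vertices of degree at most `r`; without connectedness the bound fails for every `r`. -/
theorem Pool.Agent.Results.MP_39baa9_co.EvenBound.result :
    (∀ r : ℕ, Even r → 4 ≤ r → ∀ (V : Type) [Finite V] (G : SimpleGraph V),
      (r + 2) ^ 2 ≤ Nat.card V → G.Connected → EdgeCritical 3 G → lowDegreeCount G r ≤ r) ∧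
    (∀ r N : ℕ, ∃ (V : Type) (_ : Finite V) (G : SimpleGraph V),
      N ≤ Nat.card V ∧ EdgeCritical 3 G ∧ r + 1 ≤ lowDegreeCount G r) :=
  ⟨fun r hev hr V _ G hn hc h => connected_bound r hev hr V G hn hc h, disconnected_example⟩
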